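import Pool.Agent.helper98.P2F.Spec
import Mathlib.Topology.Homotopy.Lifting

/-!
# Module INB of project p2f (MP_70a088_an): inverse branches on discs without critical values
-/

set_option autoImplicit false

open Complex Metric Set Filter Topology MeasureTheory
open Pool.Agent.helper98.ILF
open WP (it)
open HY (UD T S hd UN RM)
open PM
open P2 (SS FL FLS CLS FR TL)
open PL (TP LO PZ GJ INR PG DK ht tr DI CY hG cv hv cm BS DQ)
open P2B (VE)

noncomputable section

namespace P2F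

/-- the part of the domain where the derivative does not vanish. -/
abbrev INB_E (Ω : Set ℂ) (G : ℂ → ℂ) : Type := {z : ℂ // z ∈ Ω ∧ deriv G z ≠ 0}

theorem INB_sd {Ω : Set ℂ} {G : ℂ → ℂ} (hΩ : IsOpen Ω) (hG : DifferentiableOn ℂ G Ω) {z : ℂ} (hz : z ∈ Ω) : HasStrictDerivAt G (deriv G z) z :=
  (hG.analyticAt (hΩ.mem_nhds hz)).hasStrictDerivAt

theorem INB_open {Ω : Set ℂ} {G : ℂ → ℂ} (hΩ : IsOpen Ω) (hG : DifferentiableOn ℂ G Ω) : IsOpen {z : ℂ | z ∈ Ω ∧ deriv G z ≠ 0} := by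
  have h := (hG.deriv hΩ).continuousOn.isOpen_inter_preimage hΩ (isOpen_compl_singleton (x := (0 : ℂ)))
  exact h

theorem INB_homeo {Ω : Set ℂ} {G : ℂ → ℂ} (hΩ : IsOpen Ω) (hG : DifferentiableOn ℂ G Ω) : IsLocalHomeomorph (fun e : INB_E Ω G => G e.1) := by
  have h1 : IsLocalHomeomorphOn G {z : ℂ | z ∈ Ω ∧ deriv G z ≠ 0} := by
    intro z hz
    have hF := (INB_sd hΩ hG hz.1).hasStrictFDerivAt_equiv hz.2
    exact ⟨hF.toOpenPartialHomeomorph G, hF.mem_toOpenPartialHomeomorph_source, (hF.toOpenPartialHomeomorph_coe).symm⟩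
  have h2 : IsLocalHomeomorph (Subtype.val : INB_E Ω G → ℂ) := (INB_open hΩ hG).isOpenEmbedding_subtypeVal.isLocalHomeomorph
  rw [isLocalHomeomorph_iff_isLocalHomeomorphOn_univ] at h2 ⊢
  exact h1.comp h2 (fun e _ => e.2)

theorem INB_dif {Ω : Set ℂ} {G : ℂ → ℂ} (hΩ : IsOpen Ω) (hG : DifferentiableOn ℂ G Ω) {X X' : ℂ → ℂ} {x : ℂ} (hX : DifferentiableAt ℂ X x)
    (hc : ContinuousAt X' x) (hm : X' x ∈ Ω) (hne : deriv G (X' x) ≠ 0) (he : ∀ᶠ y in 𝓝 x, G (X' y) = X y) : DifferentiableAt ℂ X' x := by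
  have h1 := hc.eventually ((INB_sd hΩ hG hm).eventually_left_inverse hne)
  have h2 : ∀ᶠ y in 𝓝 x, X' y = (INB_sd hΩ hG hm).localInverse G _ _ hne (X y) := by
    filter_upwards [h1, he] with y hy hy2
    rw [← hy2]
    exact hy.symm
  have h3 : DifferentiableAt ℂ ((INB_sd hΩ hG hm).localInverse G _ _ hne) (X x) := by
    have h := ((INB_sd hΩ hG hm).to_localInverse hne).hasDerivAt.differentiableAt
    rwa [he.self_of_nhds] at h
  exact (h3.comp x hX).congr_of_eventuallyEq h2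

theorem INB (hTDF : PM.TDF_stmt) (hPLG : PLG_stmt) : INB_stmt := by
  intro Ω G hPG hsur a ha r hr hball hcrit
  have hΩ : IsOpen Ω := (hTDF Ω hPG.dd).1
  have hG := hPG.dif
  -- the lifts of the radii
  have hmem : ∀ x : ball (G a) r, ∀ t ∈ Icc (0 : ℝ) 1, G a + (t : ℂ) * ((x : ℂ) - G a) ∈ ball (G a) r := by
    intro x t ht
    have hx : ‖(x : ℂ) - G a‖ < r := mem_ball_iff_norm.1 x.2
    rw [mem_ball_iff_norm, add_sub_cancel_left, norm_mul, Complex.norm_real, Real.norm_eq_abs, abs_of_nonneg ht.1]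
    calc t * ‖(x : ℂ) - G a‖ ≤ 1 * ‖(x : ℂ) - G a‖ := mul_le_mul_of_nonneg_right ht.2 (norm_nonneg _)
      _ < r := by rw [one_mul]; exact hx
  have h0 : G a ∈ ball (G a) r := mem_ball_self hr
  have hl : ∀ x : ball (G a) r, ∃ Γ : ℝ → ℂ, ContinuousOn Γ (Icc 0 1) ∧ Γ 0 = a ∧ ∀ t ∈ Icc (0 : ℝ) 1, Γ t ∈ Ω ∧ G (Γ t) = G a + (t : ℂ) * ((x : ℂ) - G a) := by
    intro x
    refine hPLG Ω G hPG hsur (fun t => G a + (t : ℂ) * ((x : ℂ) - G a)) ?_ ?_ a ha ?_
    · exact (continuous_const.add (Complex.continuous_ofReal.mul continuous_const)).continuousOn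
    · intro t ht
      refine ⟨hball (hmem x t ht), fun z hz he => hcrit z hz ?_⟩
      rw [he]
      exact hmem x t ht
    · simp
  choose Γ hΓc hΓ0 hΓ using hl
  have hne : ∀ (x : ball (G a) r) (t : ℝ), t ∈ Icc (0 : ℝ) 1 → Γ x t ∈ Ω ∧ deriv G (Γ x t) ≠ 0 := by
    intro x t ht
    refine ⟨(hΓ x t ht).1, hcrit _ (hΓ x t ht).1 ?_⟩
    rw [(hΓ x t ht).2]
    exact hmem x t ht
  let g : unitInterval × ball (G a) r → INB_E Ω G := fun q => ⟨Γ q.2 q.1, hne q.2 q.1 q.1.2⟩
  have hHc : Continuous (fun q : unitInterval × ball (G a) r => G a + ((q.1 : ℝ) : ℂ) * ((q.2 : ℂ) - G a)) := by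
    exact continuous_const.add ((Complex.continuous_ofReal.comp (continuous_subtype_val.comp continuous_fst)).mul
      ((continuous_subtype_val.comp continuous_snd).sub continuous_const))
  have hgc : Continuous g := by
    refine (INB_homeo hΩ hG).continuous_lift (T2Space.isSeparatedMap _) ⟨_, hHc⟩ ?_ ?_ ?_
    · funext q
      exact (hΓ q.2 q.1 q.1.2).2
    · have : (fun x : ball (G a) r => g (0, x)) = fun x => ⟨a, by have := hne x 0 ⟨le_rfl, zero_le_one⟩; rwa [hΓ0 x] at this⟩ := by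
        funext x
        apply Subtype.ext
        exact hΓ0 x
      rw [this]
      refine Continuous.subtype_mk continuous_const _
    · intro x
      refine Continuous.subtype_mk ?_ _
      exact (hΓc x).comp_continuous continuous_subtype_val (fun t => t.2)
  -- the lift
  classical
  let X' : ℂ → ℂ := fun x => if hx : x ∈ ball (G a) r then (g (1, ⟨x, hx⟩) : INB_E Ω G).1 else 0
  have hX'1 : ∀ x (hx : x ∈ ball (G a) r), X' x = Γ ⟨x, hx⟩ 1 := by
    intro x hx
    simp only [X', dif_pos hx, g]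
    rfl
  have hX'c : ContinuousOn X' (ball (G a) r) := by
    rw [continuousOn_iff_continuous_domRestrict]
    have : (ball (G a) r).domRestrict X' = fun x : ball (G a) r => (g (1, x) : INB_E Ω G).1 := by
      funext x
      rw [Set.domRestrict_apply]
      simp only [X', dif_pos x.2]
    rw [this]
    exact continuous_subtype_val.comp (hgc.comp (Continuous.prodMk_right _))
  have hfe : ∀ x ∈ ball (G a) r, G (X' x) = x := by
    intro x hx
    rw [hX'1 x hx, (hΓ ⟨x, hx⟩ 1 ⟨zero_le_one, le_rfl⟩).2]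
    push_cast
    ring
  have hX'm : ∀ x ∈ ball (G a) r, X' x ∈ Ω ∧ deriv G (X' x) ≠ 0 := by
    intro x hx
    rw [hX'1 x hx]
    exact hne _ 1 ⟨zero_le_one, le_rfl⟩
  refine ⟨X', ?_, ?_, fun w hw => ⟨(hX'm w hw).1, hfe w hw⟩⟩
  · intro x hx
    have hop : ball (G a) r ∈ 𝓝 x := isOpen_ball.mem_nhds hx
    refine (INB_dif hΩ hG (X := fun y => y) differentiableAt_id (hX'c.continuousAt hop) (hX'm x hx).1 (hX'm x hx).2 ?_).differentiableWithinAt
    filter_upwards [hop] with y hy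
    exact hfe y hy
  · have hcst : g (1, ⟨G a, h0⟩) = g (0, ⟨G a, h0⟩) := by
      refine (T2Space.isSeparatedMap (fun e : INB_E Ω G => G e.1)).const_of_comp (INB_homeo hΩ hG).isLocallyInjective (g := fun t : unitInterval => g (t, ⟨G a, h0⟩))
        (hgc.comp (Continuous.prodMk_left _)) ?_ 1 0
      intro t t'
      have e1 := (hΓ ⟨G a, h0⟩ t t.2).2
      have e2 := (hΓ ⟨G a, h0⟩ t' t'.2).2
      simp only [sub_self, mul_zero, add_zero] at e1 e2
      exact e1.trans e2.symm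
    have e : (g (1, ⟨G a, h0⟩) : INB_E Ω G).1 = (g (0, ⟨G a, h0⟩) : INB_E Ω G).1 := by rw [hcst]
    simp only [X', dif_pos h0]
    rw [e]
    exact hΓ0 _

end P2F
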